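import Pool.Agent.Y55.DS.Disc2

/-!
A discrepancy bound from exponential sums.
-/

set_option autoImplicit false

namespace Pool.Agent.K3h65.ZM

open Finset Pool.Agent.Y965.PS Polynomial
open Pool.Agent.Y55.DS (e_eq_ee fract_ind)
open Pool.Agent.Helper602.MK (ee)
open Pool.Agent.Helper602.MK.N_J5b (ee_add ee_zero ee_conj norm_ee)

lemma psi_shift (N : ℕ) (F : ℕ → ℝ) (hF0 : ∀ n, 0 ≤ F n) (hF1 : ∀ n, F n ≤ 1)
    (y : ℕ → ℝ) (K : ℕ) (hK : 1 ≤ K) (E : ℝ)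
    (hE : ∀ j : ℕ, 1 ≤ j → j ≤ K → ‖∑ n ∈ Icc 1 N, (F n : ℂ) * ee (j * y n)‖ ≤ E) (w : ℝ) :
    |∑ n ∈ Icc 1 N, F n * psi (y n - w)| ≤ 5 * N / √K + (1 + Real.log K) * E := by
  have hK0 : (0 : ℝ) < K := by exact_mod_cast hK
  have hK1 : (1 : ℝ) ≤ K := by exact_mod_cast hK
  have hs : 1 ≤ √(K : ℝ) := Real.one_le_sqrt.2 hK1
  have hs0 : 0 < √(K : ℝ) := by linarith
  have hss : √(K : ℝ) * √(K : ℝ) = K := Real.mul_self_sqrt hK0.le
  have hη0 : 0 < 1 / (2 * √(K : ℝ)) := by positivity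
  have hη1 : 1 / (2 * √(K : ℝ)) < 1 := by
    rw [div_lt_one (by positivity)]
    linarith
  have hE0 : 0 ≤ E := (norm_nonneg _).trans (hE 1 le_rfl hK)
  have key := psi_sum (Icc 1 N) hF0 hF1 (fun n => y n - w) hK hη0 hη1
  have hcard : ((Icc 1 N).card : ℝ) = N := by rw [Nat.card_Icc, Nat.add_sub_cancel]
  rw [hcard] at key
  refine key.trans ?_
  have t1 : 1 / (2 * √(K : ℝ)) * N + 2 * N / (1 / (2 * √(K : ℝ)) * K) ≤ 5 * N / √K := by
    have e1 : 2 * (N : ℝ) / (1 / (2 * √(K : ℝ)) * K) = 4 * N / √K := by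
      have h9 : 1 / (2 * √(K : ℝ)) * K = √(K : ℝ) / 2 := by
        calc 1 / (2 * √(K : ℝ)) * K = 1 / (2 * √(K : ℝ)) * (√(K : ℝ) * √(K : ℝ)) := by rw [hss]
          _ = √(K : ℝ) / 2 := by field_simp
      rw [h9, div_eq_div_iff (by positivity) (by positivity)]
      ring
    have e2 : 1 / (2 * √(K : ℝ)) * N = (1 / 2) * N / √K := by field_simp
    rw [e1, e2, ← add_div]
    apply div_le_div_of_nonneg_right _ hs0.le
    have : (0 : ℝ) ≤ N := Nat.cast_nonneg N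
    linarith
  have t2 : ∑ n ∈ Icc 1 K, 1 / (n : ℝ) * ‖∑ m ∈ Icc 1 N, (F m : ℂ) * Pool.Agent.H469R2.NK.e (n * (y m - w))‖ ≤
      (1 + Real.log K) * E := by
    have hharm : ∑ j ∈ Icc 1 K, 1 / (j : ℝ) ≤ 1 + Real.log K := by
      have := harmonic_le_one_add_log K
      rw [harmonic_eq_sum_Icc] at this
      push_cast at this
      simpa [one_div] using this
    calc _ ≤ ∑ n ∈ Icc 1 K, 1 / (n : ℝ) * E := by
          apply sum_le_sum
          intro n hn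
          rw [mem_Icc] at hn
          apply mul_le_mul_of_nonneg_left _ (by positivity)
          have e1 : ∑ m ∈ Icc 1 N, (F m : ℂ) * Pool.Agent.H469R2.NK.e (n * (y m - w)) =
              (∑ m ∈ Icc 1 N, (F m : ℂ) * ee (n * y m)) * ee (-(n * w)) := by
            rw [sum_mul]
            apply sum_congr rfl
            intro m _
            rw [e_eq_ee, mul_assoc, ← ee_add]
            congr 2
            ring
          rw [e1, norm_mul, norm_ee, mul_one]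
          exact hE n hn.1 hn.2
      _ = (∑ j ∈ Icc 1 K, 1 / (j : ℝ)) * E := by rw [sum_mul]
      _ ≤ _ := mul_le_mul_of_nonneg_right hharm hE0
  exact add_le_add t1 t2

open Classical in
theorem crit (N : ℕ) (F : ℕ → ℝ) (hF0 : ∀ n, 0 ≤ F n) (hF1 : ∀ n, F n ≤ 1)
    (y : ℕ → ℝ) (K : ℕ) (hK : 1 ≤ K) (E : ℝ)
    (hE : ∀ j : ℕ, 1 ≤ j → j ≤ K → ‖∑ n ∈ Icc 1 N, (F n : ℂ) * ee (j * y n)‖ ≤ E)
    (u v : ℝ) (hu : 0 ≤ u) (huv : u ≤ v) (hv : v ≤ 1) :
    |∑ n ∈ Icc 1 N, (if u ≤ Int.fract (y n) ∧ Int.fract (y n) < v then F n else 0) -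
      (v - u) * ∑ n ∈ Icc 1 N, F n| ≤ 2 * (5 * N / √K + (1 + Real.log K) * E) := by
  have e1 : ∑ n ∈ Icc 1 N, (if u ≤ Int.fract (y n) ∧ Int.fract (y n) < v then F n else 0) -
      (v - u) * ∑ n ∈ Icc 1 N, F n =
      ∑ n ∈ Icc 1 N, F n * psi (y n - v) - ∑ n ∈ Icc 1 N, F n * psi (y n - u) := by
    rw [mul_sum, ← sum_sub_distrib, ← sum_sub_distrib]
    apply sum_congr rfl
    intro n _
    have h1 := fract_ind hu huv hv (y n)
    have h2 : (if u ≤ Int.fract (y n) ∧ Int.fract (y n) < v then F n else 0)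
        = F n * (if u ≤ Int.fract (y n) ∧ Int.fract (y n) < v then (1 : ℝ) else 0) := by
      rw [mul_ite, mul_one, mul_zero]
    rw [h2, h1]; ring
  rw [e1]
  refine (abs_sub _ _).trans ?_
  have h1 := psi_shift N F hF0 hF1 y K hK E hE v
  have h2 := psi_shift N F hF0 hF1 y K hK E hE u
  linarith

end Pool.Agent.K3h65.ZM
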