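import Pool.Agent.K3h65.ZM.Poly
import Pool.Agent.W301.SS.Vino

/-!
Discrepancy of the multiples `h p x`, `p ≤ N` prime, of a number `x` which is badly approximable at the scale
`N ^ (1 / 30000)`.
-/

set_option autoImplicit false

namespace Pool.Agent.K3h65.ZM

open Finset Filter
open Pool.Agent.Helper602.MK (ee)
open Pool.Agent.W301.SS (SL VB vino)
open ArithmeticFunction (vonMangoldt)

lemma dav_ee (x : ℝ) : Pool.Agent.H807R2.Dav.ee x = ee x := by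
  unfold Pool.Agent.H807R2.Dav.ee ee
  congr 1
  ring

lemma one_add_log_le (ε : ℝ) (hε : 0 < ε) (N : ℝ) (hN : 1 ≤ N) : 1 + Real.log N ≤ (1 + 1 / ε) * N ^ ε := by
  have h1 : Real.log N ≤ N ^ ε / ε := Real.log_le_rpow_div (by linarith) hε
  have h2 : (1 : ℝ) ≤ N ^ ε := Real.one_le_rpow hN hε.le
  have h3 : (1 + 1 / ε) * N ^ ε = N ^ ε + N ^ ε / ε := by ring
  rw [h3]
  linarith

/-- the exponential sum over the primes -/
lemma sl_le (κ : ℝ) (hκ : 0 < κ) (hκ1 : κ ≤ 1 / 2) : ∃ N₀ : ℕ, ∀ N : ℕ, N₀ ≤ N → ∀ x : ℝ, Bad κ N x → ∀ f : ℕ, 1 ≤ f →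
    (f : ℝ) ≤ 2 * (N : ℝ) ^ (κ / 2) → ‖SL N (f * x)‖ ≤ (N : ℝ) ^ (1 - κ / 5) := by
  obtain ⟨C, hC, hv⟩ := vino
  obtain ⟨ε, hε⟩ : ∃ ε, ε = κ / 280 := ⟨_, rfl⟩
  have hε0 : 0 < ε := by rw [hε]; positivity
  have e1 : ∀ᶠ N : ℕ in atTop, C * (1 + 1 / ε) ^ 7 * 4 ≤ (N : ℝ) ^ (κ / 40) :=
    ((tendsto_rpow_atTop (by positivity)).comp tendsto_natCast_atTop_atTop).eventually (eventually_ge_atTop _)
  obtain ⟨N₀, hN₀⟩ := eventually_atTop.1 (e1.and (eventually_ge_atTop 1))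
  refine ⟨N₀, fun N hN x hx f hf hfN => ?_⟩
  obtain ⟨h1, h2⟩ := hN₀ N hN
  have hN1 : (1 : ℝ) ≤ N := by exact_mod_cast h2
  have hN0 : (0 : ℝ) < N := by linarith
  obtain ⟨n, hn⟩ : ∃ n, n = ⌊√(N : ℝ)⌋₊ := ⟨_, rfl⟩
  have hs1 : 1 ≤ √(N : ℝ) := Real.one_le_sqrt.2 hN1
  have hn1 : 0 < n := by
    rw [hn, Nat.floor_pos]
    exact hs1
  have hn2 : (n : ℝ) ≤ √(N : ℝ) := by rw [hn]; exact Nat.floor_le (Real.sqrt_nonneg _)
  have hn3 : √(N : ℝ) < n + 1 := by rw [hn]; exact Nat.lt_floor_add_one _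
  obtain ⟨r, hr1, hr2⟩ := Real.exists_rat_abs_sub_le_and_den_le (f * x) hn1
  have hq1 : 1 ≤ r.den := r.den_pos
  have hq0 : (0 : ℝ) < r.den := by exact_mod_cast hq1
  have hqn : (r.den : ℝ) ≤ n := by exact_mod_cast hr2
  have hrr : ((r : ℚ) : ℝ) = (r.num : ℝ) / r.den := by
    rw [Rat.cast_def]
  rw [hrr] at hr1
  have hcop : IsCoprime r.num (r.den : ℤ) := by
    rw [Int.isCoprime_iff_gcd_eq_one]
    exact r.reduced
  have hα : |(f : ℝ) * x - (r.num : ℝ) / r.den| ≤ 1 / (r.den : ℝ) ^ 2 := by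
    refine hr1.trans ?_
    apply one_div_le_one_div_of_le (by positivity)
    rw [sq]
    exact mul_le_mul_of_nonneg_right (by linarith) hq0.le
  -- the denominator is large
  have hf0 : (0 : ℝ) < f := by exact_mod_cast hf
  have hbig : (N : ℝ) ^ κ < r.den * f := by
    by_contra hcon
    push Not at hcon
    have h3 := hx (r.den * f) (by
      have : 0 < r.den * f := Nat.mul_pos (by omega) (by omega)
      omega) (by push_cast; exact hcon) r.num
    have h4 : ((r.den * f : ℕ) : ℝ) * x - r.num = r.den * ((f : ℝ) * x - (r.num : ℝ) / r.den) := by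
      push_cast
      field_simp
    rw [h4, abs_mul, abs_of_pos hq0] at h3
    have h5 : (r.den : ℝ) * |(f : ℝ) * x - (r.num : ℝ) / r.den| ≤ 1 / (n + 1) := by
      calc (r.den : ℝ) * |(f : ℝ) * x - (r.num : ℝ) / r.den| ≤ r.den * (1 / ((n + 1) * r.den)) :=
            mul_le_mul_of_nonneg_left hr1 hq0.le
        _ = 1 / (n + 1) := by field_simp
    have h6 : 1 / ((n : ℝ) + 1) ≤ 1 / √(N : ℝ) := one_div_le_one_div_of_le (by linarith) hn3.le
    have h7 : 1 / √(N : ℝ) = (N : ℝ) ^ (-(1 / 2 : ℝ)) := by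
      rw [Real.rpow_neg hN0.le, Real.sqrt_eq_rpow, one_div]
    linarith
  have hden : (N : ℝ) ^ (κ / 2) / 2 ≤ r.den := by
    have h3 : (N : ℝ) ^ κ = (N : ℝ) ^ (κ / 2) * (N : ℝ) ^ (κ / 2) := by
      rw [← Real.rpow_add hN0]; congr 1; ring
    have h4 : 0 < (N : ℝ) ^ (κ / 2) := Real.rpow_pos_of_pos hN0 _
    have h5 : (N : ℝ) ^ (κ / 2) * (N : ℝ) ^ (κ / 2) < (r.den * 2) * (N : ℝ) ^ (κ / 2) := by
      calc _ = (N : ℝ) ^ κ := h3.symm
        _ < r.den * f := hbig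
        _ ≤ r.den * (2 * (N : ℝ) ^ (κ / 2)) := mul_le_mul_of_nonneg_left hfN hq0.le
        _ = _ := by ring
    have h6 := lt_of_mul_lt_mul_right h5 h4.le
    linarith
  have hV := hv N r.den h2 hq1 r.num hcop (f * x) hα
  have hp0 : (0 : ℝ) < (N : ℝ) ^ (1 - κ / 4) := Real.rpow_pos_of_pos hN0 _
  have hVB : VB N r.den ≤ 4 * (N : ℝ) ^ (1 - κ / 4) := by
    unfold VB
    have h3 : (N : ℝ) / √(r.den : ℝ) ≤ 2 * (N : ℝ) ^ (1 - κ / 4) := by
      rw [div_le_iff₀ (Real.sqrt_pos.2 hq0)]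
      have h4 : (N : ℝ) ^ (κ / 4) / 2 ≤ √(r.den : ℝ) := by
        apply Real.le_sqrt_of_sq_le
        calc ((N : ℝ) ^ (κ / 4) / 2) ^ 2 = (N : ℝ) ^ (κ / 2) / 4 := by
              rw [div_pow, ← Real.rpow_natCast, ← Real.rpow_mul hN0.le]
              norm_num
              congr 1
              ring
          _ ≤ (N : ℝ) ^ (κ / 2) / 2 := by
              have : 0 < (N : ℝ) ^ (κ / 2) := Real.rpow_pos_of_pos hN0 _
              linarith
          _ ≤ _ := hden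
      calc (N : ℝ) = 2 * (N : ℝ) ^ (1 - κ / 4) * ((N : ℝ) ^ (κ / 4) / 2) := by
            have h5 : (N : ℝ) ^ (1 - κ / 4) * (N : ℝ) ^ (κ / 4) = N := by
              rw [← Real.rpow_add hN0]
              have : 1 - κ / 4 + κ / 4 = 1 := by ring
              rw [this, Real.rpow_one]
            calc (N : ℝ) = (N : ℝ) ^ (1 - κ / 4) * (N : ℝ) ^ (κ / 4) := h5.symm
              _ = _ := by ring
        _ ≤ _ := mul_le_mul_of_nonneg_left h4 (by positivity)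
    have h5 : (N : ℝ) ^ (4 / 5 : ℝ) ≤ (N : ℝ) ^ (1 - κ / 4) :=
      Real.rpow_le_rpow_of_exponent_le hN1 (by linarith)
    have h6 : √((N : ℝ) * r.den) ≤ (N : ℝ) ^ (1 - κ / 4) := by
      calc √((N : ℝ) * r.den) ≤ √((N : ℝ) * √(N : ℝ)) := by
            apply Real.sqrt_le_sqrt
            exact mul_le_mul_of_nonneg_left (hqn.trans hn2) hN0.le
        _ = (N : ℝ) ^ (3 / 4 : ℝ) := by
            rw [Real.sqrt_eq_rpow, Real.sqrt_eq_rpow]
            nth_rewrite 1 [← Real.rpow_one (N : ℝ)]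
            rw [← Real.rpow_add hN0, ← Real.rpow_mul hN0.le]
            congr 1
            norm_num
        _ ≤ _ := Real.rpow_le_rpow_of_exponent_le hN1 (by linarith)
    linarith
  have hlog := one_add_log_le ε hε0 N hN1
  have hlog0 : 0 ≤ 1 + Real.log N := by have := Real.log_nonneg hN1; linarith
  have hpow : (1 + Real.log N) ^ 7 ≤ (1 + 1 / ε) ^ 7 * (N : ℝ) ^ (κ / 40) := by
    calc (1 + Real.log N) ^ 7 ≤ ((1 + 1 / ε) * (N : ℝ) ^ ε) ^ 7 := pow_le_pow_left₀ hlog0 hlog 7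
      _ = (1 + 1 / ε) ^ 7 * (N : ℝ) ^ (κ / 40) := by
          rw [mul_pow, ← Real.rpow_natCast ((N : ℝ) ^ ε), ← Real.rpow_mul hN0.le]
          congr 2
          rw [hε]; push_cast; ring
  calc ‖SL N (f * x)‖ ≤ C * (1 + Real.log N) ^ 7 * VB N r.den := hV
    _ ≤ C * ((1 + 1 / ε) ^ 7 * (N : ℝ) ^ (κ / 40)) * (4 * (N : ℝ) ^ (1 - κ / 4)) := by
        apply mul_le_mul (mul_le_mul_of_nonneg_left hpow hC.le) hVB _ (by positivity)
        unfold VB
        positivity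
    _ = (C * (1 + 1 / ε) ^ 7 * 4) * ((N : ℝ) ^ (κ / 40) * (N : ℝ) ^ (1 - κ / 4)) := by ring
    _ ≤ (N : ℝ) ^ (κ / 40) * ((N : ℝ) ^ (κ / 40) * (N : ℝ) ^ (1 - κ / 4)) :=
        mul_le_mul_of_nonneg_right h1 (by positivity)
    _ = (N : ℝ) ^ (1 - κ / 5) := by
        rw [← Real.rpow_add hN0, ← Real.rpow_add hN0]
        congr 1; ring

lemma psi_theta (N : ℕ) (hN : 1 ≤ N) :
    ∑ n ∈ Icc 1 N, |vonMangoldt n - (if n.Prime then Real.log n else 0)| ≤ 2 * √(N : ℝ) * Real.log N := by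
  have h1 := Chebyshev.psi_sub_theta_le (x := (N : ℝ)) (by exact_mod_cast hN)
  refine le_trans (le_of_eq ?_) h1
  have e0 : Icc 0 N = insert 0 (Icc 1 N) := by
    ext n; simp only [mem_Icc, mem_insert]; omega
  rw [Chebyshev.psi_eq_sum_Icc, Chebyshev.theta_eq_sum_Icc, Nat.floor_natCast, sum_filter, e0,
    sum_insert (by simp), sum_insert (by simp)]
  simp only [ArithmeticFunction.map_zero, zero_add, Nat.not_prime_zero, if_false]
  rw [← sum_sub_distrib]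
  apply sum_congr rfl
  intro n _
  by_cases h : n.Prime
  · rw [if_pos h, ArithmeticFunction.vonMangoldt_apply_prime h, sub_self, abs_zero]
  · rw [if_neg h, sub_zero, abs_of_nonneg ArithmeticFunction.vonMangoldt_nonneg]

open Classical in
theorem prime_disc (κ : ℝ) (hκ : 0 < κ) (hκ1 : κ ≤ 1 / 2) : ∃ N₀ : ℕ, ∀ N : ℕ, N₀ ≤ N → ∀ x : ℝ, Bad κ N x →
    ∀ h : ℕ, 1 ≤ h → (h : ℝ) ≤ (N : ℝ) ^ (κ / 4) → ∀ u v : ℝ, 0 ≤ u → u ≤ v → v ≤ 1 →
      |∑ p ∈ Icc 1 N, (if p.Prime ∧ u ≤ Int.fract ((h : ℝ) * p * x) ∧ Int.fract ((h : ℝ) * p * x) < v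
          then Real.log p else 0) -
        (v - u) * ∑ p ∈ Icc 1 N, (if p.Prime then Real.log p else 0)| ≤ (N : ℝ) ^ (1 - κ / 9) := by
  obtain ⟨N₁, hN₁⟩ := sl_le κ hκ hκ1
  have e1 : ∀ᶠ N : ℕ in atTop, 20 * (1 + 144 / κ) ≤ (N : ℝ) ^ (κ / 144) :=
    ((tendsto_rpow_atTop (by positivity)).comp tendsto_natCast_atTop_atTop).eventually (eventually_ge_atTop _)
  obtain ⟨N₀, hN₀⟩ := eventually_atTop.1 (e1.and ((eventually_ge_atTop 3).and (eventually_ge_atTop N₁)))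
  refine ⟨N₀, fun N hN x hx h hh hhN u v hu huv hv => ?_⟩
  obtain ⟨h1, h2, h3⟩ := hN₀ N hN
  have hN1 : (1 : ℝ) < N := by exact_mod_cast (by omega : 1 < N)
  have hN0 : (0 : ℝ) < N := by linarith
  have hlN : 0 < Real.log N := Real.log_pos hN1
  obtain ⟨K, hK⟩ : ∃ K, K = ⌈(N : ℝ) ^ (κ / 4)⌉₊ := ⟨_, rfl⟩
  have hNδ : 1 ≤ (N : ℝ) ^ (κ / 4) := Real.one_le_rpow hN1.le (by positivity)
  have hK1 : (N : ℝ) ^ (κ / 4) ≤ K := by rw [hK]; exact Nat.le_ceil _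
  have hK2 : (K : ℝ) ≤ 2 * (N : ℝ) ^ (κ / 4) := by
    have := Nat.ceil_lt_add_one (by positivity : 0 ≤ (N : ℝ) ^ (κ / 4))
    rw [← hK] at this
    linarith
  have hK3 : 1 ≤ K := by
    have : (1 : ℝ) ≤ K := hNδ.trans hK1
    exact_mod_cast this
  have hK0 : (0 : ℝ) < K := by exact_mod_cast hK3
  let F : ℕ → ℝ := fun n => if n ≤ N then vonMangoldt n / Real.log N else 0
  have hF0 : ∀ n, 0 ≤ F n := by
    intro n
    show 0 ≤ if n ≤ N then vonMangoldt n / Real.log N else 0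
    split_ifs
    · exact div_nonneg ArithmeticFunction.vonMangoldt_nonneg hlN.le
    · exact le_rfl
  have hF1 : ∀ n, F n ≤ 1 := by
    intro n
    show (if n ≤ N then vonMangoldt n / Real.log N else 0) ≤ 1
    split_ifs with hn
    · rw [div_le_one hlN]
      rcases Nat.eq_zero_or_pos n with rfl | hn0
      · simp [hlN.le]
      · exact ArithmeticFunction.vonMangoldt_le_log.trans (Real.log_le_log (by exact_mod_cast hn0) (by exact_mod_cast hn))
    · exact zero_le_one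
  have hFe : ∀ n ∈ Icc 1 N, F n = vonMangoldt n / Real.log N := by
    intro n hn
    rw [mem_Icc] at hn
    show (if n ≤ N then vonMangoldt n / Real.log N else 0) = _
    rw [if_pos hn.2]
  have hE : ∀ j : ℕ, 1 ≤ j → j ≤ K → ‖∑ n ∈ Icc 1 N, (F n : ℂ) * ee (j * (fun n : ℕ => (h : ℝ) * n * x) n)‖ ≤
      (N : ℝ) ^ (1 - κ / 5) / Real.log N := by
    intro j hj1 hjK
    have hj2 : ((j * h : ℕ) : ℝ) ≤ 2 * (N : ℝ) ^ (κ / 2) := by
      push_cast
      have hj3 : (j : ℝ) ≤ 2 * (N : ℝ) ^ (κ / 4) := (by exact_mod_cast hjK : (j : ℝ) ≤ K).trans hK2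
      calc (j : ℝ) * h ≤ (2 * (N : ℝ) ^ (κ / 4)) * (N : ℝ) ^ (κ / 4) := by gcongr
        _ = 2 * (N : ℝ) ^ (κ / 2) := by
            rw [mul_assoc, ← Real.rpow_add hN0]
            congr 2; ring
    have hj4 := hN₁ N h3 x hx (j * h) (by
      have : 0 < j * h := Nat.mul_pos (by omega) (by omega)
      omega) hj2
    have e2 : ∑ n ∈ Icc 1 N, (F n : ℂ) * ee (j * (fun n : ℕ => (h : ℝ) * n * x) n) =
        ((1 / Real.log N : ℝ) : ℂ) * SL N (((j * h : ℕ) : ℝ) * x) := by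
      unfold SL
      rw [mul_sum]
      apply sum_congr rfl
      intro n hn
      rw [hFe n hn, dav_ee]
      have e3 : (j : ℝ) * ((fun n : ℕ => (h : ℝ) * n * x) n) = (n : ℝ) * (((j * h : ℕ) : ℝ) * x) := by
        push_cast; ring
      rw [e3]
      push_cast
      ring
    rw [e2, norm_mul, Complex.norm_real, Real.norm_of_nonneg (by positivity), one_div_mul_eq_div]
    exact div_le_div_of_nonneg_right hj4 hlN.le
  have key := crit N F hF0 hF1 (fun n : ℕ => (h : ℝ) * n * x) K hK3 _ hE u v hu huv hv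
  -- multiply by `log N`
  have hΛ : |∑ n ∈ Icc 1 N, (if u ≤ Int.fract ((h : ℝ) * n * x) ∧ Int.fract ((h : ℝ) * n * x) < v then vonMangoldt n else 0) -
      (v - u) * ∑ n ∈ Icc 1 N, vonMangoldt n| ≤
      2 * (5 * N / √K * Real.log N + (1 + Real.log K) * (N : ℝ) ^ (1 - κ / 5)) := by
    have e2 : ∑ n ∈ Icc 1 N, (if u ≤ Int.fract ((h : ℝ) * n * x) ∧ Int.fract ((h : ℝ) * n * x) < v then vonMangoldt n else 0) =
        Real.log N * ∑ n ∈ Icc 1 N, (if u ≤ Int.fract ((h : ℝ) * n * x) ∧ Int.fract ((h : ℝ) * n * x) < v then F n else 0) := by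
      rw [mul_sum]
      apply sum_congr rfl
      intro n hn
      rw [hFe n hn, mul_ite, mul_zero]
      congr 1
      field_simp
    have e3 : ∑ n ∈ Icc 1 N, vonMangoldt n = Real.log N * ∑ n ∈ Icc 1 N, F n := by
      rw [mul_sum]
      apply sum_congr rfl
      intro n hn
      rw [hFe n hn]
      field_simp
    have e4 := mul_le_mul_of_nonneg_left key hlN.le
    rw [← abs_of_pos hlN, ← abs_mul, abs_of_pos hlN] at e4
    rw [e2, e3]
    have e5 : Real.log N * (∑ n ∈ Icc 1 N, (if u ≤ Int.fract ((h : ℝ) * n * x) ∧ Int.fract ((h : ℝ) * n * x) < v then F n else 0)) -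
        (v - u) * (Real.log N * ∑ n ∈ Icc 1 N, F n) =
        Real.log N * (∑ n ∈ Icc 1 N, (if u ≤ Int.fract ((h : ℝ) * n * x) ∧ Int.fract ((h : ℝ) * n * x) < v then F n else 0) -
          (v - u) * ∑ n ∈ Icc 1 N, F n) := by ring
    rw [e5]
    refine e4.trans (le_of_eq ?_)
    field_simp
  have hψ := psi_theta N (by omega)
  have hA : |∑ p ∈ Icc 1 N, (if p.Prime ∧ u ≤ Int.fract ((h : ℝ) * p * x) ∧ Int.fract ((h : ℝ) * p * x) < v
          then Real.log p else 0) -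
      ∑ n ∈ Icc 1 N, (if u ≤ Int.fract ((h : ℝ) * n * x) ∧ Int.fract ((h : ℝ) * n * x) < v then vonMangoldt n else 0)| ≤
      2 * √(N : ℝ) * Real.log N := by
    rw [← sum_sub_distrib]
    refine (abs_sum_le_sum_abs _ _).trans (le_trans (sum_le_sum fun n _ => ?_) hψ)
    by_cases hb : u ≤ Int.fract ((h : ℝ) * n * x) ∧ Int.fract ((h : ℝ) * n * x) < v
    · by_cases hp : n.Prime
      · rw [if_pos ⟨hp, hb⟩, if_pos hb, if_pos hp, abs_sub_comm]
      · rw [if_neg (fun h => hp h.1), if_pos hb, if_neg hp, abs_sub_comm]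
    · rw [if_neg (fun h => hb h.2), if_neg hb, sub_self, abs_zero]
      exact abs_nonneg _
  have hB : |(v - u) * ∑ p ∈ Icc 1 N, (if p.Prime then Real.log p else 0) - (v - u) * ∑ n ∈ Icc 1 N, vonMangoldt n| ≤
      2 * √(N : ℝ) * Real.log N := by
    rw [← mul_sub, abs_mul, abs_of_nonneg (by linarith : 0 ≤ v - u), ← sum_sub_distrib]
    have e2 : |∑ n ∈ Icc 1 N, ((if n.Prime then Real.log n else 0) - vonMangoldt n)| ≤ 2 * √(N : ℝ) * Real.log N := by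
      refine (abs_sum_le_sum_abs _ _).trans (le_trans (sum_le_sum fun n _ => ?_) hψ)
      rw [abs_sub_comm]
    calc (v - u) * |∑ n ∈ Icc 1 N, ((if n.Prime then Real.log n else 0) - vonMangoldt n)| ≤
        1 * |∑ n ∈ Icc 1 N, ((if n.Prime then Real.log n else 0) - vonMangoldt n)| :=
          mul_le_mul_of_nonneg_right (by linarith) (abs_nonneg _)
      _ ≤ _ := by rw [one_mul]; exact e2
  -- sizes
  have hp0 : (0 : ℝ) < (N : ℝ) ^ (1 - κ / 8) := Real.rpow_pos_of_pos hN0 _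
  have t1 : 5 * (N : ℝ) / √K ≤ 5 * (N : ℝ) ^ (1 - κ / 8) := by
    have e9 : (N : ℝ) ^ (κ / 8) ≤ √K := by
      apply Real.le_sqrt_of_sq_le
      rw [← Real.rpow_natCast, ← Real.rpow_mul hN0.le]
      push_cast
      have : κ / 8 * 2 = κ / 4 := by ring
      rw [this]
      exact hK1
    have e10 : (N : ℝ) = (N : ℝ) ^ (1 - κ / 8) * (N : ℝ) ^ (κ / 8) := by
      rw [← Real.rpow_add hN0]
      have : 1 - κ / 8 + κ / 8 = 1 := by ring
      rw [this, Real.rpow_one]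
    rw [div_le_iff₀ (Real.sqrt_pos.2 hK0)]
    nth_rewrite 1 [e10]
    calc 5 * ((N : ℝ) ^ (1 - κ / 8) * (N : ℝ) ^ (κ / 8)) = 5 * (N : ℝ) ^ (1 - κ / 8) * (N : ℝ) ^ (κ / 8) := by ring
      _ ≤ _ := mul_le_mul_of_nonneg_left e9 (by positivity)
  have t2 : 1 + Real.log K ≤ 2 + Real.log N := by
    have e9 : Real.log K ≤ Real.log (2 * (N : ℝ) ^ (κ / 4)) := Real.log_le_log hK0 hK2
    rw [Real.log_mul (by norm_num) (by positivity), Real.log_rpow hN0] at e9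
    have e12 : Real.log 2 ≤ 1 := by have := Real.log_two_lt_d9; linarith
    have e13 : κ / 4 * Real.log N ≤ Real.log N := mul_le_of_le_one_left hlN.le (by linarith)
    linarith
  have t3 : (N : ℝ) ^ (1 - κ / 5) ≤ (N : ℝ) ^ (1 - κ / 8) :=
    Real.rpow_le_rpow_of_exponent_le hN1.le (by linarith)
  have t4 : √(N : ℝ) ≤ (N : ℝ) ^ (1 - κ / 8) := by
    rw [Real.sqrt_eq_rpow]
    exact Real.rpow_le_rpow_of_exponent_le hN1.le (by linarith)
  have t5 : 5 * (N : ℝ) / √K * Real.log N ≤ 5 * (N : ℝ) ^ (1 - κ / 8) * Real.log N :=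
    mul_le_mul_of_nonneg_right t1 hlN.le
  have t6 : (1 + Real.log K) * (N : ℝ) ^ (1 - κ / 5) ≤ (2 + Real.log N) * (N : ℝ) ^ (1 - κ / 8) :=
    mul_le_mul t2 t3 (by positivity) (by linarith)
  have t7 : √(N : ℝ) * Real.log N ≤ (N : ℝ) ^ (1 - κ / 8) * Real.log N :=
    mul_le_mul_of_nonneg_right t4 hlN.le
  have hfin : 20 * (1 + Real.log N) * (N : ℝ) ^ (1 - κ / 8) ≤ (N : ℝ) ^ (1 - κ / 9) := by
    have e2 := one_add_log_le (κ / 144) (by positivity) N hN1.le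
    have e3 : (1 : ℝ) / (κ / 144) = 144 / κ := by rw [one_div_div]
    rw [e3] at e2
    calc 20 * (1 + Real.log N) * (N : ℝ) ^ (1 - κ / 8) ≤
        20 * ((1 + 144 / κ) * (N : ℝ) ^ (κ / 144)) * (N : ℝ) ^ (1 - κ / 8) := by
          apply mul_le_mul_of_nonneg_right _ hp0.le
          linarith
      _ = (20 * (1 + 144 / κ)) * ((N : ℝ) ^ (κ / 144) * (N : ℝ) ^ (1 - κ / 8)) := by ring
      _ ≤ (N : ℝ) ^ (κ / 144) * ((N : ℝ) ^ (κ / 144) * (N : ℝ) ^ (1 - κ / 8)) :=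
          mul_le_mul_of_nonneg_right h1 (by positivity)
      _ = (N : ℝ) ^ (1 - κ / 9) := by
          rw [← Real.rpow_add hN0, ← Real.rpow_add hN0]
          congr 1; ring
  refine le_trans ?_ hfin
  have hA' := abs_le.1 hA
  have hB' := abs_le.1 hB
  have hΛ' := abs_le.1 hΛ
  have hb : 2 * (5 * N / √K * Real.log N + (1 + Real.log K) * (N : ℝ) ^ (1 - κ / 5)) +
      2 * √(N : ℝ) * Real.log N + 2 * √(N : ℝ) * Real.log N ≤ 20 * (1 + Real.log N) * (N : ℝ) ^ (1 - κ / 8) := by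
    nlinarith
  rw [abs_le]
  constructor <;> linarith [hA'.1, hA'.2, hB'.1, hB'.2, hΛ'.1, hΛ'.2]

end Pool.Agent.K3h65.ZM
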