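import Pool.Agent.K3h65.ZM.Scale
import Pool.Agent.K3h65.ZM.Primes

/-!
The choice of the number for each scale, and the pigeonhole principle.
-/

set_option autoImplicit false

namespace Pool.Agent.K3h65.ZM

open Finset Filter

theorem choice (z : ℕ → ℝ) (c : ℝ) (hc : 0 < c)
    (hm : ∀ (a : ℕ → ℤ) (q : ℕ), 0 < q → ∃ j ∈ J9, c / (q : ℝ) ^ 1628 ≤ |z j - (a j : ℝ) / q|) :
    ∃ J : ℕ → ℕ, (∀ N, J N ∈ J9) ∧ ∃ N₀ : ℕ, ∀ N : ℕ, N₀ ≤ N → Bad (1 / 30000) N (z (J N)) := by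
  have h1 : ∀ N : ℕ, ∃ j ∈ J9, 1 ≤ N → ∀ k : ℕ, 1 ≤ k → k ≤ ⌊(N : ℝ) ^ (1 / 30000 : ℝ)⌋₊ → ∀ a : ℤ,
      c / ((⌊(N : ℝ) ^ (1 / 30000 : ℝ)⌋₊ : ℕ) : ℝ) ^ 14652 ≤ |k * z j - a| := by
    intro N
    rcases Nat.eq_zero_or_pos N with rfl | hN
    · exact ⟨11, by decide, fun h => absurd h (by norm_num)⟩
    · have hN1 : (1 : ℝ) ≤ N := by exact_mod_cast hN
      have hK : 1 ≤ ⌊(N : ℝ) ^ (1 / 30000 : ℝ)⌋₊ := by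
        rw [Nat.one_le_floor_iff]
        exact Real.one_le_rpow hN1 (by norm_num)
      obtain ⟨j, hj, h⟩ := scale z c hc hm _ hK
      exact ⟨j, hj, fun _ => h⟩
  choose J hJ hJ2 using h1
  have e1 : ∀ᶠ N : ℕ in atTop, 2 / c ≤ (N : ℝ) ^ (29 / 2500 : ℝ) :=
    ((tendsto_rpow_atTop (by norm_num)).comp tendsto_natCast_atTop_atTop).eventually (eventually_ge_atTop _)
  obtain ⟨N₀, hN₀⟩ := eventually_atTop.1 (e1.and (eventually_ge_atTop 1))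
  refine ⟨J, hJ, N₀, fun N hN l hl hlN a => ?_⟩
  obtain ⟨h2, h3⟩ := hN₀ N hN
  have hN1 : (1 : ℝ) ≤ N := by exact_mod_cast h3
  have hN0 : (0 : ℝ) < N := by linarith
  have h4 := hJ2 N h3 l hl (Nat.le_floor hlN) a
  refine lt_of_lt_of_le ?_ h4
  have hK : 1 ≤ ⌊(N : ℝ) ^ (1 / 30000 : ℝ)⌋₊ := by
    rw [Nat.one_le_floor_iff]
    exact Real.one_le_rpow hN1 (by norm_num)
  have hK0 : (0 : ℝ) < ((⌊(N : ℝ) ^ (1 / 30000 : ℝ)⌋₊ : ℕ) : ℝ) := by exact_mod_cast hK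
  have hK1 : ((⌊(N : ℝ) ^ (1 / 30000 : ℝ)⌋₊ : ℕ) : ℝ) ≤ (N : ℝ) ^ (1 / 30000 : ℝ) :=
    Nat.floor_le (by positivity)
  have h5 : ((⌊(N : ℝ) ^ (1 / 30000 : ℝ)⌋₊ : ℕ) : ℝ) ^ 14652 ≤ (N : ℝ) ^ (1221 / 2500 : ℝ) := by
    calc ((⌊(N : ℝ) ^ (1 / 30000 : ℝ)⌋₊ : ℕ) : ℝ) ^ 14652 ≤ ((N : ℝ) ^ (1 / 30000 : ℝ)) ^ 14652 :=
          pow_le_pow_left₀ hK0.le hK1 _
      _ = (N : ℝ) ^ (1221 / 2500 : ℝ) := by
          rw [← Real.rpow_natCast, ← Real.rpow_mul hN0.le]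
          congr 1
          norm_num
  rw [lt_div_iff₀ (by positivity)]
  have h6 : (N : ℝ) ^ (-(1 / 2 : ℝ)) * (N : ℝ) ^ (1221 / 2500 : ℝ) * (N : ℝ) ^ (29 / 2500 : ℝ) = 1 := by
    rw [← Real.rpow_add hN0, ← Real.rpow_add hN0]
    norm_num
  have h7 : (0 : ℝ) < (N : ℝ) ^ (-(1 / 2 : ℝ)) * (N : ℝ) ^ (1221 / 2500 : ℝ) := by positivity
  have h8 : (N : ℝ) ^ (-(1 / 2 : ℝ)) * (N : ℝ) ^ (1221 / 2500 : ℝ) * (2 / c) ≤ 1 :=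
    (mul_le_mul_of_nonneg_left h2 h7.le).trans h6.le
  have h9 : (N : ℝ) ^ (-(1 / 2 : ℝ)) * (N : ℝ) ^ (1221 / 2500 : ℝ) ≤ c / 2 := by
    have h10 : (N : ℝ) ^ (-(1 / 2 : ℝ)) * (N : ℝ) ^ (1221 / 2500 : ℝ) * (2 / c) * (c / 2) ≤ 1 * (c / 2) :=
      mul_le_mul_of_nonneg_right h8 (by positivity)
    have h11 : (2 / c) * (c / 2) = 1 := by field_simp
    rw [mul_assoc, h11, mul_one, one_mul] at h10
    exact h10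
  calc (N : ℝ) ^ (-(1 / 2 : ℝ)) * ((⌊(N : ℝ) ^ (1 / 30000 : ℝ)⌋₊ : ℕ) : ℝ) ^ 14652 ≤
      (N : ℝ) ^ (-(1 / 2 : ℝ)) * (N : ℝ) ^ (1221 / 2500 : ℝ) := mul_le_mul_of_nonneg_left h5 (by positivity)
    _ ≤ c / 2 := h9
    _ < c := by linarith

/-- one value is taken on a set of upper density at least `1 / 9` -/
theorem pigeon (J : ℕ → ℕ) (hJ : ∀ N, J N ∈ J9) :
    ∃ j ∈ J9, ∀ X₀ : ℕ, ∃ X : ℕ, X₀ ≤ X ∧ X ≤ 9 * ((Icc 1 X).filter (fun N => J N = j)).card := by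
  by_contra hcon
  push Not at hcon
  have h1 : ∀ j : ℕ, ∃ X₀ : ℕ, j ∈ J9 → ∀ X : ℕ, X₀ ≤ X → 9 * ((Icc 1 X).filter (fun N => J N = j)).card < X := by
    intro j
    by_cases hj : j ∈ J9
    · obtain ⟨X₀, h⟩ := hcon j hj
      exact ⟨X₀, fun _ => h⟩
    · exact ⟨0, fun h => absurd h hj⟩
  choose X₀ hX₀ using h1
  obtain ⟨X, hX⟩ : ∃ X, X = ∑ j ∈ J9, X₀ j := ⟨_, rfl⟩
  have h2 : ∀ j ∈ J9, 9 * ((Icc 1 X).filter (fun N => J N = j)).card < X := by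
    intro j hj
    apply hX₀ j hj
    rw [hX]
    exact single_le_sum (f := X₀) (fun _ _ => Nat.zero_le _) hj
  have h3 : (Icc 1 X).card = ∑ j ∈ J9, ((Icc 1 X).filter (fun N => J N = j)).card :=
    card_eq_sum_card_fiberwise fun N _ => hJ N
  have h4 : ∑ j ∈ J9, 9 * ((Icc 1 X).filter (fun N => J N = j)).card < ∑ _j ∈ J9, X :=
    sum_lt_sum_of_nonempty ⟨11, by decide⟩ h2
  rw [← mul_sum, ← h3, sum_const, J9_card, Nat.card_Icc, Nat.add_sub_cancel, smul_eq_mul] at h4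
  exact lt_irrefl _ h4

end Pool.Agent.K3h65.ZM
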