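import Pool.Agent.K3h65.ZM.Crit
import Pool.Agent.H373R2.NB.WeylSum

/-!
Discrepancy of polynomials with a leading coefficient which is badly approximable at the scale `N ^ κ`.
-/

set_option autoImplicit false

namespace Pool.Agent.K3h65.ZM

open Finset Pool.Agent.H373R2.NB Polynomial Filter
open Pool.Agent.Y55.DS (Ph_real Ph_mul)
open Pool.Agent.Helper602.MK (ee)

/-- no multiple `l x`, `l ≤ N ^ κ`, is closer than `N ^ (-1/2)` to an integer -/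
def Bad (κ : ℝ) (N : ℕ) (x : ℝ) : Prop :=
  ∀ l : ℕ, 1 ≤ l → (l : ℝ) ≤ (N : ℝ) ^ κ → ∀ a : ℤ, (N : ℝ) ^ (-(1 / 2 : ℝ)) < |l * x - a|

open Classical in
theorem poly_disc (κ : ℝ) (hκ : 0 < κ) (k : ℕ) (hk : 1 ≤ k) : ∃ δ : ℝ, 0 < δ ∧ ∃ N₀ : ℕ, ∀ N : ℕ, N₀ ≤ N →
    ∀ x : ℝ, Bad κ N x → ∀ h : ℕ, 1 ≤ h → (h : ℝ) ≤ (N : ℝ) ^ δ → ∀ P : ℝ[X], P.natDegree ≤ k →
      P.coeff k = h * x → ∀ u v : ℝ, 0 ≤ u → u ≤ v → v ≤ 1 →
        |∑ n ∈ Icc 1 N, (if u ≤ Int.fract (P.eval (n : ℝ)) ∧ Int.fract (P.eval (n : ℝ)) < v then (1 : ℝ) else 0) -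
          (v - u) * N| ≤ (N : ℝ) ^ (1 - δ) := by
  obtain ⟨c, m, hc, hI⟩ := IW_all k hk
  have hcR : (1 : ℝ) ≤ c := by exact_mod_cast hc
  -- `δ' = min κ (1/4) / (m + 3)`, frequencies up to `N ^ δ'`
  obtain ⟨κ', hκ'⟩ : ∃ κ', κ' = min κ (1 / 4) := ⟨_, rfl⟩
  have hκ'0 : 0 < κ' := by rw [hκ']; positivity
  have hκ'1 : κ' ≤ κ := by rw [hκ']; exact min_le_left _ _
  have hκ'2 : κ' ≤ 1 / 4 := by rw [hκ']; exact min_le_right _ _
  obtain ⟨δ, hδ⟩ : ∃ δ, δ = κ' / (m + 4) := ⟨_, rfl⟩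
  have hm0 : (0 : ℝ) ≤ m := Nat.cast_nonneg m
  have hδ0 : 0 < δ := by rw [hδ]; positivity
  have hδκ : δ * (m + 4) = κ' := by rw [hδ]; field_simp
  have hδ1 : δ < 1 := by nlinarith
  refine ⟨δ / 4, by positivity, ?_⟩
  have e1 : ∀ᶠ N : ℕ in atTop, 2 * (k.factorial : ℝ) * c ≤ (N : ℝ) ^ δ :=
    ((tendsto_rpow_atTop hδ0).comp tendsto_natCast_atTop_atTop).eventually (eventually_ge_atTop _)
  have e2 : ∀ᶠ N : ℕ in atTop, 10 + 2 * (3 + 4 / δ) ≤ (N : ℝ) ^ (δ / 4) :=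
    ((tendsto_rpow_atTop (by positivity)).comp tendsto_natCast_atTop_atTop).eventually (eventually_ge_atTop _)
  obtain ⟨N₀, hN₀⟩ := eventually_atTop.1 (e1.and (e2.and (eventually_ge_atTop 1)))
  refine ⟨N₀, fun N hN x hx h hh hhN P hP hPk u v hu huv hv => ?_⟩
  obtain ⟨h1, h2, h3⟩ := hN₀ N hN
  have hN1 : (1 : ℝ) ≤ N := by exact_mod_cast h3
  have hN0 : (0 : ℝ) < N := by linarith
  obtain ⟨K, hK⟩ : ∃ K, K = ⌈(N : ℝ) ^ δ⌉₊ := ⟨_, rfl⟩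
  have hNδ : 1 ≤ (N : ℝ) ^ δ := Real.one_le_rpow hN1 hδ0.le
  have hK1 : (N : ℝ) ^ δ ≤ K := by rw [hK]; exact Nat.le_ceil _
  have hK2 : (K : ℝ) ≤ 2 * (N : ℝ) ^ δ := by
    have := Nat.ceil_lt_add_one (by positivity : 0 ≤ (N : ℝ) ^ δ)
    rw [← hK] at this
    linarith
  have hK3 : 1 ≤ K := by
    have : (1 : ℝ) ≤ K := hNδ.trans hK1
    exact_mod_cast this
  have hPh := Ph_real k P hP
  rw [hPk] at hPh
  have hE : ∀ j : ℕ, 1 ≤ j → j ≤ K → ‖∑ n ∈ Icc 1 N, (((fun _ : ℕ => (1 : ℝ)) n : ℝ) : ℂ) * ee (j * (fun n : ℕ => P.eval (n : ℝ)) n)‖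
      ≤ (N : ℝ) ^ (1 - δ) := by
    intro j hj1 hjK
    by_contra hcon
    push Not at hcon
    have hPj := Ph_mul k (j : ℝ) _ _ hPh
    have hPs := Ph_succ k _ _ hPj
    have e3 : ∑ n ∈ Icc 1 N, (((fun _ : ℕ => (1 : ℝ)) n : ℝ) : ℂ) * ee (j * (fun n : ℕ => P.eval (n : ℝ)) n) =
        ∑ n ∈ range N, ee (j * P.eval ((n + 1 : ℕ) : ℝ)) := by
      rw [← sum_Icc_one (fun n => ee (j * P.eval (n : ℝ)))]
      apply sum_congr rfl
      intro n _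
      simp
    rw [e3] at hcon
    have e4 : (N : ℝ) ≤ (N : ℝ) ^ δ * ‖∑ n ∈ range N, ee (j * P.eval ((n + 1 : ℕ) : ℝ))‖ := by
      calc (N : ℝ) = (N : ℝ) ^ δ * (N : ℝ) ^ (1 - δ) := by
            rw [← Real.rpow_add hN0]
            have : δ + (1 - δ) = 1 := by ring
            rw [this, Real.rpow_one]
        _ ≤ _ := mul_le_mul_of_nonneg_left hcon.le (by positivity)
    obtain ⟨q, hq1, hq2, a, ha⟩ := hI N ((N : ℝ) ^ δ) _ _ h3 hNδ hPs e4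
    have hpow : ((N : ℝ) ^ δ) ^ m = (N : ℝ) ^ (δ * m) := by
      rw [← Real.rpow_natCast, ← Real.rpow_mul hN0.le]
    rw [hpow] at hq2 ha
    -- the denominator
    have hl : ((q * (j * (k.factorial * h)) : ℕ) : ℝ) ≤ (N : ℝ) ^ κ := by
      push_cast
      have hj2 : (j : ℝ) ≤ 2 * (N : ℝ) ^ δ := (by exact_mod_cast hjK : (j : ℝ) ≤ K).trans hK2
      have hh2 : (h : ℝ) ≤ (N : ℝ) ^ δ := hhN.trans (Real.rpow_le_rpow_of_exponent_le hN1 (by linarith))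
      calc (q : ℝ) * (j * (k.factorial * h)) ≤ (c * (N : ℝ) ^ (δ * m)) * ((2 * (N : ℝ) ^ δ) * (k.factorial * (N : ℝ) ^ δ)) := by
            gcongr
        _ = (2 * (k.factorial : ℝ) * c) * ((N : ℝ) ^ (δ * m) * (N : ℝ) ^ δ * (N : ℝ) ^ δ) := by ring
        _ ≤ (N : ℝ) ^ δ * ((N : ℝ) ^ (δ * m) * (N : ℝ) ^ δ * (N : ℝ) ^ δ) :=
            mul_le_mul_of_nonneg_right h1 (by positivity)
        _ = (N : ℝ) ^ (δ * (m + 3)) := by
            rw [← Real.rpow_add hN0, ← Real.rpow_add hN0, ← Real.rpow_add hN0]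
            congr 1; ring
        _ ≤ (N : ℝ) ^ κ := by
            apply Real.rpow_le_rpow_of_exponent_le hN1
            nlinarith
    have hl1 : 1 ≤ q * (j * (k.factorial * h)) := by
      have := Nat.factorial_pos k
      have h5 : 0 < q * (j * (k.factorial * h)) := by positivity
      omega
    have hbad := hx _ hl1 hl a
    have e5 : ((q * (j * (k.factorial * h)) : ℕ) : ℝ) * x = (q : ℝ) * (j * (k.factorial * (h * x))) := by
      push_cast; ring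
    rw [e5] at hbad
    have e6 : (c : ℝ) * (N : ℝ) ^ (δ * m) / (N : ℝ) ^ k ≤ (N : ℝ) ^ (-(1 / 2 : ℝ)) := by
      rw [div_le_iff₀ (by positivity), ← Real.rpow_natCast, ← Real.rpow_add hN0]
      have hkf : (1 : ℝ) ≤ k.factorial := by exact_mod_cast Nat.factorial_pos k
      have e7 : (c : ℝ) ≤ (N : ℝ) ^ δ := by nlinarith
      calc (c : ℝ) * (N : ℝ) ^ (δ * m) ≤ (N : ℝ) ^ δ * (N : ℝ) ^ (δ * m) :=
            mul_le_mul_of_nonneg_right e7 (by positivity)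
        _ = (N : ℝ) ^ (δ + δ * m) := by rw [← Real.rpow_add hN0]
        _ ≤ _ := by
            apply Real.rpow_le_rpow_of_exponent_le hN1
            have hk1 : (1 : ℝ) ≤ k := by exact_mod_cast hk
            nlinarith
    linarith
  have key := crit N (fun _ => 1) (fun _ => zero_le_one) (fun _ => le_rfl) (fun n : ℕ => P.eval (n : ℝ)) K hK3
    ((N : ℝ) ^ (1 - δ)) hE u v hu huv hv
  have e8 : ∑ n ∈ Icc 1 N, (fun _ : ℕ => (1 : ℝ)) n = N := by simp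
  rw [e8] at key
  refine key.trans ?_
  -- the final estimate
  have hK0 : (0 : ℝ) < K := by linarith
  have t1 : 5 * (N : ℝ) / √K ≤ 5 * (N : ℝ) ^ (1 - δ / 2) := by
    have e9 : (N : ℝ) ^ (δ / 2) ≤ √K := by
      apply Real.le_sqrt_of_sq_le
      rw [← Real.rpow_natCast, ← Real.rpow_mul hN0.le]
      push_cast
      have : δ / 2 * 2 = δ := by ring
      rw [this]
      exact hK1
    have e10 : (N : ℝ) = (N : ℝ) ^ (1 - δ / 2) * (N : ℝ) ^ (δ / 2) := by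
      rw [← Real.rpow_add hN0]
      have : 1 - δ / 2 + δ / 2 = 1 := by ring
      rw [this, Real.rpow_one]
    rw [div_le_iff₀ (Real.sqrt_pos.2 hK0)]
    nth_rewrite 1 [e10]
    calc 5 * ((N : ℝ) ^ (1 - δ / 2) * (N : ℝ) ^ (δ / 2)) = 5 * (N : ℝ) ^ (1 - δ / 2) * (N : ℝ) ^ (δ / 2) := by ring
      _ ≤ _ := mul_le_mul_of_nonneg_left e9 (by positivity)
  have t2 : 1 + Real.log K ≤ (3 + 4 / δ) * (N : ℝ) ^ (δ / 4) := by
    have e9 : Real.log K ≤ Real.log 2 + δ * Real.log N := by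
      have e10 : Real.log K ≤ Real.log (2 * (N : ℝ) ^ δ) := Real.log_le_log hK0 hK2
      rwa [Real.log_mul (by norm_num) (by positivity), Real.log_rpow hN0] at e10
    have e10 : Real.log N ≤ (N : ℝ) ^ (δ / 4) / (δ / 4) := Real.log_le_rpow_div hN0.le (by positivity)
    have e11 : (1 : ℝ) ≤ (N : ℝ) ^ (δ / 4) := Real.one_le_rpow hN1 (by positivity)
    have e12 : Real.log 2 ≤ 1 := by have := Real.log_two_lt_d9; linarith
    have e13 : 0 ≤ Real.log N := Real.log_nonneg hN1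
    have e14 : δ * Real.log N ≤ Real.log N := mul_le_of_le_one_left e13 hδ1.le
    have e15 : (N : ℝ) ^ (δ / 4) / (δ / 4) = 4 / δ * (N : ℝ) ^ (δ / 4) := by field_simp
    nlinarith
  have t3 : (N : ℝ) ^ (1 - δ / 2) ≤ (N : ℝ) ^ (1 - δ / 2) := le_rfl
  have hp0 : (0 : ℝ) ≤ (N : ℝ) ^ (1 - δ) := by positivity
  have t4 : (1 + Real.log K) * (N : ℝ) ^ (1 - δ) ≤ (3 + 4 / δ) * (N : ℝ) ^ (1 - δ / 2) := by
    calc (1 + Real.log K) * (N : ℝ) ^ (1 - δ) ≤ ((3 + 4 / δ) * (N : ℝ) ^ (δ / 4)) * (N : ℝ) ^ (1 - δ) :=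
          mul_le_mul_of_nonneg_right t2 hp0
      _ = (3 + 4 / δ) * (N : ℝ) ^ (δ / 4 + (1 - δ)) := by rw [mul_assoc, ← Real.rpow_add hN0]
      _ ≤ _ := by
          apply mul_le_mul_of_nonneg_left _ (by positivity)
          exact Real.rpow_le_rpow_of_exponent_le hN1 (by linarith)
  calc 2 * (5 * (N : ℝ) / √K + (1 + Real.log K) * (N : ℝ) ^ (1 - δ))
      ≤ 2 * (5 * (N : ℝ) ^ (1 - δ / 2) + (3 + 4 / δ) * (N : ℝ) ^ (1 - δ / 2)) := by linarith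
    _ = (10 + 2 * (3 + 4 / δ)) * (N : ℝ) ^ (1 - δ / 2) := by ring
    _ ≤ (N : ℝ) ^ (δ / 4) * (N : ℝ) ^ (1 - δ / 2) := mul_le_mul_of_nonneg_right h2 (by positivity)
    _ = (N : ℝ) ^ (1 - δ / 4) := by rw [← Real.rpow_add hN0]; congr 1; ring

end Pool.Agent.K3h65.ZM
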