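import Mathlib

/-!
At every scale one of the nine numbers `ζ(11), ζ(13), …, ζ(27)` is badly approximable.
-/

set_option autoImplicit false

namespace Pool.Agent.K3h65.ZM

open Finset

/-- the exponents -/
def J9 : Finset ℕ := {11, 13, 15, 17, 19, 21, 23, 25, 27}

lemma J9_card : J9.card = 9 := by decide

lemma mem_J9 {j : ℕ} (h : j ∈ J9) : Odd j ∧ 11 ≤ j ∧ j ≤ 27 := by
  unfold J9 at h
  fin_cases h <;> decide

theorem scale (z : ℕ → ℝ) (c : ℝ) (hc : 0 < c)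
    (hm : ∀ (a : ℕ → ℤ) (q : ℕ), 0 < q → ∃ j ∈ J9, c / (q : ℝ) ^ 1628 ≤ |z j - (a j : ℝ) / q|)
    (K : ℕ) (hK : 1 ≤ K) : ∃ j ∈ J9, ∀ k : ℕ, 1 ≤ k → k ≤ K → ∀ a : ℤ,
      c / (K : ℝ) ^ 14652 ≤ |k * z j - a| := by
  by_contra hcon
  push Not at hcon
  have h1 : ∀ j : ℕ, ∃ k : ℕ, ∃ a : ℤ, 1 ≤ k ∧ k ≤ K ∧ (j ∈ J9 → |k * z j - a| < c / (K : ℝ) ^ 14652) := by
    intro j
    by_cases hj : j ∈ J9
    · obtain ⟨k, hk1, hk2, a, ha⟩ := hcon j hj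
      exact ⟨k, a, hk1, hk2, fun _ => ha⟩
    · exact ⟨1, 0, le_rfl, hK, fun h => absurd h hj⟩
  choose k a hk1 hk2 hka using h1
  obtain ⟨q, hq⟩ : ∃ q, q = ∏ j ∈ J9, k j := ⟨_, rfl⟩
  have hq0 : 0 < q := by
    rw [hq]
    exact Finset.prod_pos fun j _ => hk1 j
  have hqK : q ≤ K ^ 9 := by
    rw [hq]
    calc ∏ j ∈ J9, k j ≤ ∏ _j ∈ J9, K := Finset.prod_le_prod' fun j _ => hk2 j
      _ = K ^ 9 := by rw [Finset.prod_const, J9_card]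
  obtain ⟨j, hj, h2⟩ := hm (fun j => a j * ((q / k j : ℕ) : ℤ)) q hq0
  have hdvd : k j ∣ q := hq ▸ Finset.dvd_prod_of_mem k hj
  have hkj : (0 : ℝ) < k j := by exact_mod_cast hk1 j
  have hqR : (0 : ℝ) < q := by exact_mod_cast hq0
  have h3 : ((q / k j : ℕ) : ℝ) = (q : ℝ) / k j := Nat.cast_div hdvd hkj.ne'
  have h4 : z j - ((a j * ((q / k j : ℕ) : ℤ) : ℤ) : ℝ) / q = (k j * z j - a j) / k j := by
    rw [Int.cast_mul, Int.cast_natCast, h3]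
    field_simp
  rw [h4, abs_div, abs_of_pos hkj] at h2
  have h5 := hka j hj
  have h6 : |(k j : ℝ) * z j - a j| / k j ≤ |(k j : ℝ) * z j - a j| :=
    div_le_self (abs_nonneg _) (by exact_mod_cast hk1 j)
  have hKR : (0 : ℝ) < K := by exact_mod_cast hK
  have h7 : c / (K : ℝ) ^ 14652 ≤ c / (q : ℝ) ^ 1628 := by
    apply div_le_div_of_nonneg_left hc.le (by positivity)
    calc (q : ℝ) ^ 1628 ≤ ((K : ℝ) ^ 9) ^ 1628 := by
          apply pow_le_pow_left₀ hqR.le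
          exact_mod_cast hqK
      _ = (K : ℝ) ^ 14652 := by rw [← pow_mul]
  linarith

end Pool.Agent.K3h65.ZM
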